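import Pool.Agent.Helper720.LcsIA

set_option autoImplicit false

open scoped commutatorElement

namespace Pool.Agent.Results.MP_df4ecf_al.IAThree

open Pool.Agent.Helper720.Lcs

section Sanity

variable {G : Type*} [Group G]

/-- The span of the classes of brackets is everything in degree `k + 2`. -/
lemma incl_mem_range (k : ℕ) (g : Gam G (k + 1)) :
    incl (k + 1) (cls (k + 1) g) ∈ (natMap G).range := by
  induction k with
  | zero => exact ⟨gen (cls 1 g), natMap_gen _⟩
  | succ k ih =>
    obtain ⟨g, hg⟩ := g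
    have hg' : g ∈ ⁅Gam G (k + 1), (⊤ : Subgroup G)⁆ := hg
    rw [Subgroup.commutator_def] at hg'
    have hle : Subgroup.closure {g : G | ∃ g₁ ∈ Gam G (k + 1), ∃ g₂ ∈ (⊤ : Subgroup G),
        ⁅g₁, g₂⁆ = g} ≤ Gam G (k + 2) := (Subgroup.commutator_def _ _).symm.le
    refine Subgroup.closure_induction (p := fun g _ => ∀ h : g ∈ Gam G (k + 2),
      incl (k + 2) (cls (k + 2) ⟨g, h⟩) ∈ (natMap G).range) ?_ ?_ ?_ ?_ hg' hg
    · rintro _ ⟨a, ha, b, _, rfl⟩ h
      have h1 := ih ⟨a, ha⟩
      have h2 : incl 1 (cls 1 ⟨b, Subgroup.mem_top b⟩) ∈ (natMap G).range :=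
        ⟨gen (cls 1 ⟨b, Subgroup.mem_top b⟩), natMap_gen _⟩
      have h3 := (natMap G).range.lie_mem h1 h2
      rw [lie_incl] at h3
      exact h3
    · intro h
      have : cls (k + 2) (⟨1, h⟩ : Gam G (k + 2)) = 0 := cls_one
      rw [this, map_zero]
      exact (natMap G).range.zero_mem
    · intro a b ha hb iha ihb h
      have ha' := hle ha
      have hb' := hle hb
      have : cls (k + 2) (⟨a * b, h⟩ : Gam G (k + 2)) =
          cls (k + 2) ⟨a, ha'⟩ + cls (k + 2) ⟨b, hb'⟩ := rfl
      rw [this, map_add]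
      exact (natMap G).range.add_mem (iha ha') (ihb hb')
    · intro a ha iha h
      have ha' := hle ha
      have : cls (k + 2) (⟨a⁻¹, h⟩ : Gam G (k + 2)) = - cls (k + 2) ⟨a, ha'⟩ := rfl
      rw [this, map_neg]
      exact (natMap G).range.neg_mem (iha ha')

/-- Sanity check: the natural map `L[V] → E_0^*(G)` is surjective. -/
theorem natMap_surjective : Function.Surjective (natMap G) := by
  intro y
  have h : y ∈ (natMap G).range := by
    refine E0_induction (p := fun y => y ∈ (natMap G).range) ?_ ?_ ?_ y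
    · exact (natMap G).range.zero_mem
    · intro k g hk
      obtain ⟨k, rfl⟩ : ∃ k', k = k' + 1 := ⟨k - 1, by omega⟩
      exact incl_mem_range k g
    · intro a b ha hb
      exact (natMap G).range.add_mem ha hb
  exact h

end Sanity

/-- There is some `n ≥ 2` (namely `n = 3`) for which the kernel of `L[V] → E_0^*(IA_n)` is not
generated by its degree two part. -/
theorem result : (∃ n : ℕ, 2 ≤ n ∧ ¬ FreeModQuadratic (IA n)) ∧ ¬ FreeModQuadratic (IA 3) :=
  ⟨⟨3, by norm_num, IA3_not_quadratic⟩, IA3_not_quadratic⟩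

end Pool.Agent.Results.MP_df4ecf_al.IAThree
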